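import Pool.Agent.L7h91.TW.Fin2

set_option autoImplicit false

/-!
# Iarrobino's bound for `r ≥ 2 ^ N + N + 1` very general points of `ℙ ^ N`, `N ≥ 3`

Let `N ≥ 3` and `r ≥ 2 ^ N + N + 1` (for `N ≥ 6` also `r = 2 ^ N + N` is allowed). If `X` is a set of `r`
very general points of complex projective space of dimension `N`, then
`α(I(X) ^ (n)) ≥ n r ^ (1 / N)` for all `n`, which is the conjecture of Iarrobino. So for every `N ≥ 3`
only the numbers `2 ^ N < r ≤ 2 ^ N + N` remain, for instance `r = 10, 11` for `N = 3`.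

More generally a nonzero form which vanishes to order at least `m j` at the `j`-th point has degree
at least `((m 1 + ... + m r) / r) r ^ (1 / N)`, and all this holds over every field of
characteristic zero for points whose coordinates are algebraically independent over the rational
numbers.

Idea of the proof: forms of degree `d` are regarded as Laurent polynomials with exponents in a
simplex, and the simplex is transformed step by step (each step does not destroy forms vanishing at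
general points) until all its slopes are `r`. There is one step for the smooth conic and one for
the nodal cubic in a coordinate plane; the former has no parameter, the latter a real
one, and together they reach `r ^ (1 / N)` only if one more real parameter can be found. The new
step uses the first infinitesimal neighbourhood of a nodal curve twisted by a translation: the
restriction of a form to it is a section with a connection, and the possible exponents
of its leading terms give a transformation with two real parameters.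
-/

namespace Pool.Agent.Results.MP_5499e5_ag.IarrobinoTwoPower

open MvPolynomial

theorem result (N r : ℕ) (hN : 3 ≤ N) (hr : 2 ^ N + N + 1 ≤ r ∨ (6 ≤ N ∧ 2 ^ N + N ≤ r)) :
    (∃ F : ℕ → MvPolynomial (Fin r × Fin (N + 1)) ℂ, (∀ i, F i ≠ 0) ∧
      ∀ P : Fin r → Fin (N + 1) → ℂ,
        (∀ i, MvPolynomial.eval (fun q : Fin r × Fin (N + 1) => P q.1 q.2) (F i) ≠ 0) →
        (∀ n d : ℕ, ∀ f : MvPolynomial (Fin (N + 1)) ℂ, f.IsHomogeneous d → f ≠ 0 →
          (∀ j : Fin r, f ∈ (RingHom.ker (MvPolynomial.eval (P j))) ^ n) →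
          (n : ℝ) * (r : ℝ) ^ ((1 : ℝ) / (N : ℝ)) ≤ (d : ℝ)) ∧
        ∀ (m : Fin r → ℕ) (d : ℕ) (f : MvPolynomial (Fin (N + 1)) ℂ), f.IsHomogeneous d → f ≠ 0 →
          (∀ j : Fin r, f ∈ (RingHom.ker (MvPolynomial.eval (P j))) ^ m j) →
          (∑ j, (m j : ℝ)) / r * (r : ℝ) ^ ((1 : ℝ) / (N : ℝ)) ≤ (d : ℝ)) ∧
    ∀ (K : Type) [Field K] [CharZero K] (P : Fin r → Fin (N + 1) → K),
      AlgebraicIndependent ℚ (fun q : Fin r × Fin (N + 1) => P q.1 q.2) →
      (∀ n d : ℕ, ∀ f : MvPolynomial (Fin (N + 1)) K, f.IsHomogeneous d → f ≠ 0 →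
        (∀ j : Fin r, f ∈ (RingHom.ker (MvPolynomial.eval (P j))) ^ n) →
        (n : ℝ) * (r : ℝ) ^ ((1 : ℝ) / (N : ℝ)) ≤ (d : ℝ)) ∧
      ∀ (m : Fin r → ℕ) (d : ℕ) (f : MvPolynomial (Fin (N + 1)) K), f.IsHomogeneous d → f ≠ 0 →
        (∀ j : Fin r, f ∈ (RingHom.ker (MvPolynomial.eval (P j))) ^ m j) →
        (∑ j, (m j : ℝ)) / r * (r : ℝ) ^ ((1 : ℝ) / (N : ℝ)) ≤ (d : ℝ) := by
  have hB := L7h91.TW.boundX hN hr
  have hr0 : (0 : ℝ) < r := by
    have h1 : 0 < 2 ^ N := by positivity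
    have h2 : 0 < r := by omega
    exact_mod_cast h2
  have hN0 : (0 : ℝ) < N := by
    have : 0 < N := by omega
    exact_mod_cast this
  have hκ : L7h91.IR.kap N r * (r : ℝ) ^ ((1 : ℝ) / (N : ℝ)) = r := by
    unfold L7h91.IR.kap
    rw [← Real.rpow_add hr0]
    have e1 : ((N : ℝ) - 1) / N + 1 / N = 1 := by
      field_simp
      ring
    rw [e1, Real.rpow_one]
  have hp : 0 < (r : ℝ) ^ ((1 : ℝ) / (N : ℝ)) := Real.rpow_pos_of_pos hr0 _
  -- from the sum to the mean
  have key : ∀ (m : Fin r → ℕ) (d : ℕ),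
      ∑ j, (m j : ℝ) ≤ d * L7h91.IR.kap N r →
      (∑ j, (m j : ℝ)) / r * (r : ℝ) ^ ((1 : ℝ) / (N : ℝ)) ≤ (d : ℝ) := by
    intro m d h
    rw [div_mul_eq_mul_div, div_le_iff₀ hr0]
    calc (∑ j, (m j : ℝ)) * (r : ℝ) ^ ((1 : ℝ) / (N : ℝ))
        ≤ d * L7h91.IR.kap N r * (r : ℝ) ^ ((1 : ℝ) / (N : ℝ)) :=
          mul_le_mul_of_nonneg_right h hp.le
      _ = d * r := by rw [mul_assoc, hκ]
  have key2 : ∀ n d : ℕ,
      (∑ _j : Fin r, (n : ℝ)) / r * (r : ℝ) ^ ((1 : ℝ) / (N : ℝ)) ≤ (d : ℝ) →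
      (n : ℝ) * (r : ℝ) ^ ((1 : ℝ) / (N : ℝ)) ≤ (d : ℝ) := by
    intro n d h
    rw [Finset.sum_const, Finset.card_univ, Fintype.card_fin, nsmul_eq_mul,
      mul_div_cancel_left₀ _ hr0.ne'] at h
    exact h
  obtain ⟨⟨F, hF, hP⟩, hK⟩ := hB
  refine ⟨⟨F, hF, fun P hPF => ⟨?_, ?_⟩⟩, ?_⟩
  · intro n d f hfd hf0 hfm
    exact key2 n d (key (fun _ => n) d (hP P hPF (fun _ => n) d f hfd hf0 hfm))
  · intro m d f hfd hf0 hfm
    exact key m d (hP P hPF m d f hfd hf0 hfm)
  · intro K _ _ P hP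
    refine ⟨?_, ?_⟩
    · intro n d f hfd hf0 hfm
      exact key2 n d (key (fun _ => n) d (hK K P hP (fun _ => n) d f hfd hf0 hfm))
    · intro m d f hfd hf0 hfm
      exact key m d (hK K P hP m d f hfd hf0 hfm)

end Pool.Agent.Results.MP_5499e5_ag.IarrobinoTwoPower
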