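import Pool.Agent.L7h91.IR.Window4

set_option autoImplicit false

/-!
# Waldschmidt constants of `2 ^ N ≤ r ≤ 2 ^ N + N` very general points of projective spaces

Let `N ≥ 3`, `r ≥ 2 ^ N` and `κ = r ^ ((N - 1) / N)`. Let `X` be a set of `r` very general points of
complex projective space of dimension `N`, or of points whose coordinates are algebraically
independent over the rational numbers over any field of characteristic zero. Then every nonzero
form vanishing to order at least `m j` at the `j`-th point has degree at least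
`(m 1 + ... + m r) / (κ + 1 / N)`. For equal multiplicities:
`α(I(X) ^ (n)) ≥ n r / (κ + 1 / N) = n r ^ (1 / N) / (1 + 1 / (N κ))`.

For `r ≥ 2 ^ N + N + 1` the hand-in `IarrobinoTwoPower` has `κ` instead of `κ + 1 / N`; so the new range is
`2 ^ N < r ≤ 2 ^ N + N`. The number `κ + 1 / N` can be replaced by `M / 2` for all `2 κ ≤ M ≤ r`
which satisfy certain integrality conditions, for instance for `M = 9` if `N = 3` and `r = 9`; the
resulting bound `α(I(X) ^ (n)) ≥ 2 n` is sharp, as the nine points lie on a quadric.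
-/

namespace Pool.Agent.Results.MP_5499e5_ag.NearSharpWaldschmidt

open MvPolynomial

/-- For `r` very general points of complex projective space of dimension `N`, and for `r` points with
algebraically independent coordinates over any field of characteristic zero: a nonzero form of
degree `d` which vanishes to order at least `m j` at the `j`-th point has `∑ m j ≤ d c`. -/
def Bound (N r : ℕ) (c : ℝ) : Prop :=
  (∃ F : ℕ → MvPolynomial (Fin r × Fin (N + 1)) ℂ, (∀ i, F i ≠ 0) ∧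
    ∀ P : Fin r → Fin (N + 1) → ℂ,
      (∀ i, MvPolynomial.eval (fun q : Fin r × Fin (N + 1) => P q.1 q.2) (F i) ≠ 0) →
      ∀ (m : Fin r → ℕ) (d : ℕ) (f : MvPolynomial (Fin (N + 1)) ℂ), f.IsHomogeneous d → f ≠ 0 →
        (∀ j : Fin r, f ∈ (RingHom.ker (MvPolynomial.eval (P j))) ^ m j) →
        ∑ j, (m j : ℝ) ≤ d * c) ∧
  ∀ (K : Type) [Field K] [CharZero K] (P : Fin r → Fin (N + 1) → K),
    AlgebraicIndependent ℚ (fun q : Fin r × Fin (N + 1) => P q.1 q.2) →
    ∀ (m : Fin r → ℕ) (d : ℕ) (f : MvPolynomial (Fin (N + 1)) K), f.IsHomogeneous d → f ≠ 0 →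
      (∀ j : Fin r, f ∈ (RingHom.ker (MvPolynomial.eval (P j))) ^ m j) →
      ∑ j, (m j : ℝ) ≤ d * c

/-- `κ = r ^ ((N - 1) / N)`. -/
noncomputable def kappa (N r : ℕ) : ℝ := (r : ℝ) ^ (((N : ℝ) - 1) / (N : ℝ))

/-- The first type of allowed numbers `M`: `M` or `M - 4 (2 r / M) ^ (N - 2)` is an integer. -/
def Type1 (N r : ℕ) (M : ℝ) : Prop :=
  (∃ a : ℤ, M = a) ∨ ∃ a : ℤ, M - 4 * (2 * r / M) ^ (N - 2) = a

/-- The second type of allowed numbers `M`: for `A = 4 (2 r / M) ^ (N - 3) + 1` we have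
`(2 r / M) A ≤ M`, and there are integers `v, a` with `A (M - v) = (A - 1) a` and
`(2 r / M - 2) A < v < (2 r / M) A`. -/
def Type2 (N r : ℕ) (M : ℝ) : Prop :=
  (2 * r / M) * (4 * (2 * r / M) ^ (N - 3) + 1) ≤ M ∧
  ∃ v a : ℤ, (4 * (2 * r / M) ^ (N - 3) + 1) * (M - v) = 4 * (2 * r / M) ^ (N - 3) * a ∧
    (2 * r / M - 2) * (4 * (2 * r / M) ^ (N - 3) + 1) < v ∧
    (v : ℝ) < 2 * r / M * (4 * (2 * r / M) ^ (N - 3) + 1)

theorem result (N r : ℕ) (hN : 3 ≤ N) (hr : 2 ^ N ≤ r) :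
    Bound N r (kappa N r + 1 / N) ∧
    ∀ M : ℝ, 2 * kappa N r ≤ M → M ≤ r → (Type1 N r M ∨ Type2 N r M) → Bound N r (M / 2) := by
  refine ⟨L7h91.IR.bound_all hN hr, fun M hM1 hM2 hM3 => L7h91.IR.bound_upper3 hN ?_⟩
  · obtain ⟨p, rfl⟩ : ∃ p, N = p + 2 := ⟨N - 2, by omega⟩
    obtain ⟨x, hx2, hx1, hxk, hxκ⟩ := L7h91.IR.root hr
    have hκ : kappa (p + 2) r = x ^ (p + 1) := hxκ.symm
    have hκ0 : 0 < kappa (p + 2) r := by rw [hκ]; positivity
    have hκr : (kappa (p + 2) r) ^ (p + 2) = (r : ℝ) ^ (p + 1) := by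
      rw [hκ, ← hxk, ← pow_mul, ← pow_mul]
      congr 1
      ring
    have e1 : p + 2 - 1 = p + 1 := by omega
    have h5 : (2 : ℝ) ^ (p + 2) * (r : ℝ) ^ (p + 2 - 1) ≤ M ^ (p + 2) := by
      rw [e1, ← hκr, ← mul_pow]
      exact pow_le_pow_left₀ (by linarith) hM1 _
    rcases hM3 with hM3 | hM3
    · exact Or.inl ⟨by linarith, hM2, h5, hM3⟩
    · exact Or.inr ⟨by linarith, hM2, h5, hM3⟩

end Pool.Agent.Results.MP_5499e5_ag.NearSharpWaldschmidt
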